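import Mathlib
import Pool.Agent.helper68.AM.Spec
import Pool.Agent.helper68.AM.Tree

/-!
Project sl: (AM), module BB: Moebius sum over a block.
-/

set_option autoImplicit false

namespace AM

open Pool.Agent.helper72.Sq Finset

lemma BB_exp_half (j : ℕ) : Real.exp (0.34 * (j : ℝ)) ≤ 2 * 2 ^ (j / 2) := by
  have h2 : Real.exp 0.68 ≤ 2 := by
    rw [← Real.le_log_iff_exp_le (by norm_num)]
    have := Real.log_two_gt_d9
    linarith
  have h1 : Real.exp 0.34 ≤ 2 := by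
    refine le_trans ?_ h2
    exact Real.exp_le_exp.2 (by norm_num)
  have key : ∀ m : ℕ, Real.exp (0.34 * ((2 * m : ℕ) : ℝ)) ≤ 2 ^ m := by
    intro m
    have e : 0.34 * ((2 * m : ℕ) : ℝ) = (m : ℝ) * 0.68 := by push_cast; ring
    rw [e, Real.exp_nat_mul]
    exact pow_le_pow_left₀ (Real.exp_pos _).le h2 m
  rcases Nat.even_or_odd' j with ⟨m, hm | hm⟩
  · have : j / 2 = m := by omega
    rw [this, hm]
    have := key m
    have h3 : (0 : ℝ) < 2 ^ m := by positivity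
    linarith
  · have : j / 2 = m := by omega
    rw [this, hm]
    have e : 0.34 * ((2 * m + 1 : ℕ) : ℝ) = 0.34 * ((2 * m : ℕ) : ℝ) + 0.34 := by push_cast; ring
    rw [e, Real.exp_add]
    calc Real.exp (0.34 * ((2 * m : ℕ) : ℝ)) * Real.exp 0.34 ≤ 2 ^ m * 2 :=
          mul_le_mul (key m) h1 (Real.exp_pos _).le (by positivity)
      _ = 2 * 2 ^ m := by ring

lemma BB_ev (K : ℝ) (n : ℕ) : ∃ j1 : ℕ, ∀ j : ℕ, j1 ≤ j →
    K * (j : ℝ) ^ n * Real.exp (0.3 * (j : ℝ)) ≤ 2 ^ (j / 2) := by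
  have hr : |Real.exp (-0.04)| < 1 := by
    rw [abs_of_pos (Real.exp_pos _), Real.exp_lt_one_iff]
    norm_num
  have ht := tendsto_pow_const_mul_const_pow_of_abs_lt_one n hr
  have ht2 := ht.const_mul (2 * |K|)
  rw [mul_zero] at ht2
  have hev := ht2.eventually (gt_mem_nhds (show (0 : ℝ) < 1 by norm_num))
  obtain ⟨j1, hj1⟩ := Filter.eventually_atTop.1 hev
  refine ⟨j1, fun j hj => ?_⟩
  have h := hj1 j hj
  have e1 : Real.exp (-0.04) ^ j * Real.exp (0.04 * (j : ℝ)) = 1 := by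
    rw [← Real.exp_nat_mul, ← Real.exp_add]
    rw [show (j : ℝ) * -0.04 + 0.04 * (j : ℝ) = 0 by ring, Real.exp_zero]
  have h3 : 2 * (|K| * (j : ℝ) ^ n) ≤ Real.exp (0.04 * (j : ℝ)) := by
    have h4 : 2 * |K| * ((j : ℝ) ^ n * Real.exp (-0.04) ^ j) * Real.exp (0.04 * (j : ℝ)) ≤
        1 * Real.exp (0.04 * (j : ℝ)) :=
      mul_le_mul_of_nonneg_right h.le (Real.exp_pos _).le
    calc 2 * (|K| * (j : ℝ) ^ n) = 2 * (|K| * (j : ℝ) ^ n) *
          (Real.exp (-0.04) ^ j * Real.exp (0.04 * (j : ℝ))) := by rw [e1]; ring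
      _ = 2 * |K| * ((j : ℝ) ^ n * Real.exp (-0.04) ^ j) * Real.exp (0.04 * (j : ℝ)) := by ring
      _ ≤ 1 * Real.exp (0.04 * (j : ℝ)) := h4
      _ = _ := one_mul _
  have h5 : K * (j : ℝ) ^ n ≤ |K| * (j : ℝ) ^ n :=
    mul_le_mul_of_nonneg_right (le_abs_self K) (by positivity)
  have h6 : 2 * (K * (j : ℝ) ^ n * Real.exp (0.3 * (j : ℝ))) ≤ 2 * 2 ^ (j / 2) := by
    calc 2 * (K * (j : ℝ) ^ n * Real.exp (0.3 * (j : ℝ)))
        = (2 * (K * (j : ℝ) ^ n)) * Real.exp (0.3 * (j : ℝ)) := by ring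
      _ ≤ Real.exp (0.04 * (j : ℝ)) * Real.exp (0.3 * (j : ℝ)) :=
          mul_le_mul_of_nonneg_right (by linarith) (Real.exp_pos _).le
      _ = Real.exp (0.34 * (j : ℝ)) := by rw [← Real.exp_add]; congr 1; ring
      _ ≤ _ := BB_exp_half j
  linarith

/-- Dirichlet approximation with nonnegative numerator. -/
lemma BB_dir (l1 l2 : ℝ) (n : ℕ) (hn : 1 ≤ n) : ∃ a s : ℕ, 0 < l1 → 0 < l2 →
    1 ≤ s ∧ s ≤ n ∧ Nat.Coprime a s ∧ (s : ℝ) * |l2 / l1 - a / s| ≤ 1 / n ∧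
      |l2 / l1 - a / s| ≤ 1 / (s : ℝ) ^ 2 := by
  by_cases hl : 0 < l1 ∧ 0 < l2
  swap
  · exact ⟨0, 0, fun h1 h2 => absurd ⟨h1, h2⟩ hl⟩
  obtain ⟨h1, h2⟩ := hl
  obtain ⟨r, hr1, hr2⟩ := Real.exists_rat_abs_sub_le_and_den_le (l2 / l1) (n := n) (by omega)
  have hs : 1 ≤ r.den := r.den_pos
  have hs0 : (0 : ℝ) < r.den := by exact_mod_cast hs
  have hs1 : (1 : ℝ) ≤ r.den := by exact_mod_cast hs
  have hn0 : (0 : ℝ) < n := by exact_mod_cast hn
  have hsn : (r.den : ℝ) ≤ n := by exact_mod_cast hr2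
  have hcast : (r : ℝ) = (r.num : ℝ) / (r.den : ℝ) := Rat.cast_def r
  rw [hcast] at hr1
  have hnum : 0 ≤ r.num := by
    by_contra hneg
    push Not at hneg
    have h3 : (r.num : ℝ) ≤ -1 := by exact_mod_cast (by omega : r.num ≤ -1)
    have h4 : (r.num : ℝ) / r.den ≤ -1 / r.den := div_le_div_of_nonneg_right h3 hs0.le
    have h5 : 0 < l2 / l1 := div_pos h2 h1
    have h6 := (abs_le.1 hr1).2
    have h7 : 1 / (((n : ℝ) + 1) * r.den) < 1 / r.den := by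
      apply one_div_lt_one_div_of_lt hs0
      nlinarith
    have h8 : (-1 : ℝ) / r.den = - (1 / r.den) := by ring
    linarith
  refine ⟨r.num.toNat, r.den, fun _ _ => ⟨hs, hr2, ?_, ?_, ?_⟩⟩
  · have := r.reduced
    rwa [show r.num.natAbs = r.num.toNat by omega] at this
  · have e : ((r.num.toNat : ℕ) : ℝ) = (r.num : ℝ) := by
      have : ((r.num.toNat : ℕ) : ℤ) = r.num := Int.toNat_of_nonneg hnum
      exact_mod_cast this
    rw [e]
    calc (r.den : ℝ) * |l2 / l1 - r.num / r.den| ≤ r.den * (1 / (((n : ℝ) + 1) * r.den)) := by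
          gcongr
      _ = 1 / ((n : ℝ) + 1) := by field_simp
      _ ≤ 1 / n := by
          apply one_div_le_one_div_of_le hn0
          linarith
  · have e : ((r.num.toNat : ℕ) : ℝ) = (r.num : ℝ) := by
      have : ((r.num.toNat : ℕ) : ℤ) = r.num := Int.toNat_of_nonneg hnum
      exact_mod_cast this
    rw [e]
    refine hr1.trans ?_
    apply one_div_le_one_div_of_le (by positivity)
    nlinarith

/-- trivial bound for the sawtooth sum -/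
lemma BB_SS (l1 l2 r c : ℝ) (a s : ℕ) (hc : 0 < c) (h2 : c ≤ l2) (hr : 0 ≤ r)
    (hs : 1 ≤ s) (hcop : Nat.Coprime a s) (hα : |l2 / l1 - a / s| ≤ 1 / (s : ℝ) ^ 2) :
    |SS l1 l2 r| ≤ 5 / 2 * ((r / c + 1) / s) + s / 2 := by
  have hs0 : (0 : ℝ) < s := by exact_mod_cast hs
  have hcop' : IsCoprime (a : ℤ) (s : ℤ) := Nat.isCoprime_iff_coprime.2 hcop
  have h := psi_sum' s hs (a : ℤ) hcop' (l2 / l1) (by push_cast; exact hα) (r / l1) (⌊r / l2⌋₊ + 1)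
  unfold SS ps
  refine h.trans ?_
  have h3 : ((⌊r / l2⌋₊ + 1 : ℕ) : ℝ) ≤ r / c + 1 := by
    push_cast
    have hl2 : 0 < l2 := hc.trans_le h2
    have h4 : ((⌊r / l2⌋₊ : ℕ) : ℝ) ≤ r / l2 := Nat.floor_le (by positivity)
    have h5 : r / l2 ≤ r / c := div_le_div_of_nonneg_left hr hc h2
    linarith
  have h6 : ((⌊r / l2⌋₊ + 1 : ℕ) : ℝ) / s ≤ (r / c + 1) / s := div_le_div_of_nonneg_right h3 hs0.le
  linarith

/-- number of `d` in the block -/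
lemma BB_card (j : ℕ) (R : ℝ) (N1 N2 : ℕ) (h2 : (N2 : ℝ) ≤ R / 2 ^ j) :
    ((Ioc N1 N2).card : ℝ) ≤ R / 2 ^ j := by
  rw [Nat.card_Ioc]
  refine le_trans ?_ h2
  exact_mod_cast Nat.sub_le _ _

lemma BB_r (j : ℕ) (R : ℝ) (N1 N2 : ℕ) (_hR : 0 < R) (h1 : R / 2 ^ (j + 1) ≤ (N1 : ℝ) + 1)
    (h2 : (N2 : ℝ) ≤ R / 2 ^ j) (d : ℕ) (hd : d ∈ Ioc N1 N2) :
    2 ^ j ≤ R / d ∧ R / d ≤ 2 ^ (j + 1) := by
  rw [mem_Ioc] at hd
  have hd0 : (0 : ℝ) < d := by
    have : 0 < d := by omega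
    exact_mod_cast this
  have hp : (0 : ℝ) < 2 ^ j := by positivity
  have hp1 : (0 : ℝ) < 2 ^ (j + 1) := by positivity
  constructor
  · rw [le_div_iff₀ hd0]
    have : (d : ℝ) ≤ R / 2 ^ j := le_trans (by exact_mod_cast hd.2) h2
    rw [le_div_iff₀ hp] at this
    linarith
  · rw [div_le_iff₀ hd0]
    have : R / 2 ^ (j + 1) ≤ (d : ℝ) := h1.trans (by exact_mod_cast hd.1)
    rw [div_le_iff₀ hp1] at this
    linarith

lemma BB_mu (d : ℕ) : |mu d| ≤ 1 := by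
  unfold mu
  have := ArithmeticFunction.abs_moebius_le_one (n := d)
  exact_mod_cast this

/-- trivial bound for a Moebius sum -/
lemma BB_triv (s : Finset ℕ) (f : ℕ → ℝ) (B : ℝ) (h : ∀ d ∈ s, |f d| ≤ B) :
    |∑ d ∈ s, mu d * f d| ≤ s.card * B := by
  refine (abs_sum_le_sum_abs _ _).trans ?_
  rw [← nsmul_eq_mul]
  apply sum_le_card_nsmul
  intro d hd
  rw [abs_mul]
  have h1 := BB_mu d
  have h2 := h d hd
  have h3 := abs_nonneg (f d)
  have h4 := abs_nonneg (mu d)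
  nlinarith

/-- one leaf -/
lemma BB_leaf (hS2 : S2_stmt) (c c' : ℝ) (hc : 0 < c) (hc' : 0 < c') (C0 : ℕ) (hC0 : 1 ≤ C0) :
    ∃ C : ℝ, 0 < C ∧ ∃ j1 : ℕ, 1 ≤ j1 ∧ ∀ j : ℕ, j1 ≤ j → ∀ (R : ℝ) (N1 N2 : ℕ), 2 ^ (16 * j) ≤ R →
    R / 2 ^ (j + 1) ≤ (N1 : ℝ) + 1 → (N2 : ℝ) ≤ R / 2 ^ j →
    ∀ (y : Nd) (a s : ℕ), c ≤ y.l1 → c ≤ y.l2 → y.l1 ≤ c' * (C0 * j) → 
      1 ≤ s → s ≤ 2 ^ (j / 2) → Nat.Coprime a s →
      (s : ℝ) * |y.l2 / y.l1 - a / s| ≤ 1 / 2 ^ (j / 2) → |y.l2 / y.l1 - a / s| ≤ 1 / (s : ℝ) ^ 2 →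
      |∑ d ∈ Ioc N1 N2, mu d * SS y.l1 y.l2 (R / d)| ≤
        C * R * (j : ℝ) ^ (-(1 / 5) : ℝ) * (open Classical in
          if Bad 0.3 j y a s then 1 / (y.l2 * (s : ℝ)) else 0) + C * R / (j : ℝ) ^ 4 := by
  obtain ⟨C2, hC2, j2, h2⟩ := hS2 c (c' * C0) hc
  obtain ⟨j3, h3⟩ := BB_ev (c' * C0 * max 1 (1 / c) + 1) 1
  obtain ⟨j4, h4⟩ := BB_ev 1 4
  refine ⟨max C2 (10 / c + 12), lt_max_of_lt_left hC2, max 1 (max j2 (max j3 j4)), le_max_left _ _,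
    ?_⟩
  intro j hj R N1 N2 hR hN1 hN2 y a s hl1 hl2 hl1' hs hs' hcop hdir hα
  have hj1 : 1 ≤ j := (le_max_left _ _).trans hj
  have hj2 : j2 ≤ j := ((le_max_left _ _).trans (le_max_right _ _)).trans hj
  have hj3 : j3 ≤ j := ((le_max_left _ _).trans ((le_max_right _ _).trans (le_max_right _ _))).trans hj
  have hj4 : j4 ≤ j := ((le_max_right _ _).trans ((le_max_right _ _).trans (le_max_right _ _))).trans hj
  have hjr : (1 : ℝ) ≤ j := by exact_mod_cast hj1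
  have hjr0 : (0 : ℝ) < j := by linarith
  have hRp : 0 < R := lt_of_lt_of_le (by positivity) hR
  have hs0 : (0 : ℝ) < s := by exact_mod_cast hs
  have hy1 : 0 < y.l1 := hc.trans_le hl1
  have hy2 : 0 < y.l2 := hc.trans_le hl2
  have hp5 : (0 : ℝ) < (j : ℝ) ^ (-(1 / 5) : ℝ) := Real.rpow_pos_of_pos hjr0 _
  have hP : (0 : ℝ) < 2 ^ (j / 2) := by positivity
  set C := max C2 (10 / c + 12) with hC
  have hC2C : C2 ≤ C := le_max_left _ _
  have hC3C : 10 / c + 12 ≤ C := le_max_right _ _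
  have hCp : 0 < C := hC2.trans_le hC2C
  by_cases hsj : s ≤ j ^ 4
  · -- bad leaf
    have hb := h2 j hj2 y.l1 y.l2 R a s N1 N2 hl1 hl2 (by rw [mul_assoc]; exact hl1') hs hsj hcop
      hdir hR hN1 hN2
    have hexp1 : (1 : ℝ) ≤ Real.exp (0.3 * (j : ℝ)) := Real.one_le_exp (by positivity)
    have h33 := h3 j hj3
    have hmax1 : (1 : ℝ) ≤ max 1 (1 / c) := le_max_left _ _
    have hmax2 : 1 / c ≤ max 1 (1 / c) := le_max_right _ _
    have hC0r : (1 : ℝ) ≤ C0 := by exact_mod_cast hC0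
    have hcc : 0 < c' * C0 := by positivity
    -- l1 * exp(0.3 j) ≤ 2^(j/2)
    have hA : c' * C0 * j * Real.exp (0.3 * (j : ℝ)) ≤ 2 ^ (j / 2) := by
      refine le_trans ?_ h33
      rw [pow_one]
      apply mul_le_mul_of_nonneg_right _ (Real.exp_pos _).le
      apply mul_le_mul_of_nonneg_right _ hjr0.le
      nlinarith
    have hB : c' * C0 * j < c * 2 ^ (j / 2) := by
      have h5 : (c' * C0 * (1 / c) + 1) * j ≤ 2 ^ (j / 2) := by
        refine le_trans ?_ h33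
        rw [pow_one]
        calc (c' * C0 * (1 / c) + 1) * j ≤ (c' * C0 * max 1 (1 / c) + 1) * j := by
              apply mul_le_mul_of_nonneg_right _ hjr0.le
              nlinarith
          _ ≤ (c' * C0 * max 1 (1 / c) + 1) * j * Real.exp (0.3 * (j : ℝ)) := by
              apply le_mul_of_one_le_right _ hexp1
              positivity
      have h6 : c * ((c' * C0 * (1 / c) + 1) * j) ≤ c * 2 ^ (j / 2) :=
        mul_le_mul_of_nonneg_left h5 hc.le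
      have h7 : c * ((c' * C0 * (1 / c) + 1) * j) = c' * C0 * j + c * j := by
        field_simp
      have h8 : 0 < c * j := by positivity
      linarith
    have hbad : Bad 0.3 j y a s := by
      refine ⟨?_, hs, hsj, hcop, ?_⟩
      · by_contra ha
        have ha0 : a = 0 := by omega
        rw [ha0] at hdir
        simp only [Nat.cast_zero, zero_div, sub_zero] at hdir
        rw [abs_of_pos (div_pos hy2 hy1)] at hdir
        have h9 : c / (c' * (C0 * j)) ≤ y.l2 / y.l1 := by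
          apply div_le_div₀ hy2.le hl2 hy1 hl1'
        have h10 : y.l2 / y.l1 ≤ s * (y.l2 / y.l1) := by
          apply le_mul_of_one_le_left (div_pos hy2 hy1).le
          exact_mod_cast hs
        have h11 : c / (c' * (C0 * j)) ≤ 1 / 2 ^ (j / 2) := h9.trans (h10.trans hdir)
        rw [div_le_div_iff₀ (by positivity) hP] at h11
        linarith
      · have e : (s : ℝ) * y.l2 - a * y.l1 = y.l1 * (s * (y.l2 / y.l1 - a / s)) := by
          field_simp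
        rw [e, abs_mul, abs_of_pos hy1, abs_mul, abs_of_pos hs0]
        have h12 : y.l1 * (s * |y.l2 / y.l1 - a / s|) ≤ (c' * (C0 * j)) * (1 / 2 ^ (j / 2)) :=
          mul_le_mul hl1' hdir (by positivity) (by positivity)
        refine h12.trans ?_
        rw [mul_one_div, div_le_iff₀ hP, Real.exp_neg]
        rw [inv_mul_eq_div, le_div_iff₀ (Real.exp_pos _)]
        calc c' * (C0 * j) * Real.exp (0.3 * (j : ℝ)) = c' * C0 * j * Real.exp (0.3 * (j : ℝ)) := by ring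
          _ ≤ _ := hA
    rw [if_pos hbad]
    refine hb.trans ?_
    have h13 : 0 ≤ R / (y.l2 * s) * (j : ℝ) ^ (-(1 / 5) : ℝ) := by positivity
    have h14 : 0 ≤ R / (j : ℝ) ^ 4 := by positivity
    calc C2 * (R / (y.l2 * s) * (j : ℝ) ^ (-(1 / 5) : ℝ) + R / (j : ℝ) ^ 4)
        ≤ C * (R / (y.l2 * s) * (j : ℝ) ^ (-(1 / 5) : ℝ) + R / (j : ℝ) ^ 4) :=
          mul_le_mul_of_nonneg_right hC2C (by positivity)
      _ = _ := by ring
  · -- good leaf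
    push Not at hsj
    have hsj' : (j : ℝ) ^ 4 ≤ s := by exact_mod_cast hsj.le
    have hj4p : (0 : ℝ) < (j : ℝ) ^ 4 := by positivity
    have h44 : (j : ℝ) ^ 4 ≤ 2 ^ (j / 2) := by
      have := h4 j hj4
      rw [one_mul] at this
      refine le_trans ?_ this
      exact le_mul_of_one_le_right hj4p.le (Real.one_le_exp (by positivity))
    have hsr : (s : ℝ) ≤ 2 ^ (j / 2) := by exact_mod_cast hs'
    have hSS : ∀ d ∈ Ioc N1 N2, |SS y.l1 y.l2 (R / d)| ≤ (5 / c + 6) * 2 ^ j / (j : ℝ) ^ 4 := by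
      intro d hd
      obtain ⟨r1, r2⟩ := BB_r j R N1 N2 hRp hN1 hN2 d hd
      set r := R / (d : ℝ) with hr
      have hr0 : 0 ≤ r := le_trans (by positivity) r1
      refine (BB_SS y.l1 y.l2 r c a s hc hl2 hr0 hs hcop hα).trans ?_
      have h15 : (r / c + 1) / s ≤ (2 * 2 ^ j / c + 1) / (j : ℝ) ^ 4 := by
        rw [pow_succ] at r2
        apply div_le_div₀ (by positivity) _ hj4p hsj'
        have : r / c ≤ 2 * 2 ^ j / c := div_le_div_of_nonneg_right (by linarith) hc.le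
        linarith
      have h16 : (s : ℝ) ≤ 2 ^ j / (j : ℝ) ^ 4 := by
        rw [le_div_iff₀ hj4p]
        calc (s : ℝ) * (j : ℝ) ^ 4 ≤ 2 ^ (j / 2) * 2 ^ (j / 2) :=
              mul_le_mul hsr h44 hj4p.le hP.le
          _ = 2 ^ (j / 2 + j / 2) := by rw [pow_add]
          _ ≤ 2 ^ j := pow_le_pow_right₀ (by norm_num) (by omega)
      have h17 : (1 : ℝ) ≤ 2 ^ j := one_le_pow₀ (by norm_num)
      have h18 : (5 / c + 6) * 2 ^ j / (j : ℝ) ^ 4 =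
          5 / 2 * ((2 * 2 ^ j / c + 1) / (j : ℝ) ^ 4) + 2 ^ j / (j : ℝ) ^ 4 / 2 +
            (5 / 2 * (2 ^ j - 1) + 3 * 2 ^ j) / (j : ℝ) ^ 4 := by
        field_simp
        ring
      have h19 : 0 ≤ (5 / 2 * ((2 : ℝ) ^ j - 1) + 3 * 2 ^ j) / (j : ℝ) ^ 4 := by
        apply div_nonneg _ hj4p.le
        linarith
      linarith
    have h20 := BB_triv (Ioc N1 N2) (fun d => SS y.l1 y.l2 (R / d)) _ hSS
    refine h20.trans ?_
    have h21 := BB_card j R N1 N2 hN2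
    have h22 : 0 ≤ C * R * (j : ℝ) ^ (-(1 / 5) : ℝ) * (open Classical in
          if Bad 0.3 j y a s then 1 / (y.l2 * (s : ℝ)) else 0) := by
      apply mul_nonneg (by positivity)
      split_ifs
      · positivity
      · exact le_rfl
    have h23 : ((Ioc N1 N2).card : ℝ) * ((5 / c + 6) * 2 ^ j / (j : ℝ) ^ 4) ≤ C * R / (j : ℝ) ^ 4 := by
      calc ((Ioc N1 N2).card : ℝ) * ((5 / c + 6) * 2 ^ j / (j : ℝ) ^ 4)
          ≤ R / 2 ^ j * ((5 / c + 6) * 2 ^ j / (j : ℝ) ^ 4) :=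
            mul_le_mul_of_nonneg_right h21 (by positivity)
        _ = (5 / c + 6) * R / (j : ℝ) ^ 4 := by field_simp
        _ ≤ C * R / (j : ℝ) ^ 4 := by
            apply div_le_div_of_nonneg_right _ hj4p.le
            apply mul_le_mul_of_nonneg_right _ hRp.le
            have : 0 < 5 / c := by positivity
            have e : 10 / c = 5 / c + 5 / c := by ring
            linarith
    linarith

/-- the gap between the curved and the straight count -/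
noncomputable def BB_G (r : ℝ) (y : Nd) : ℝ :=
  ((HS y.t r).ncard : ℝ) - ((LinSet y.l1 y.l2 r).ncard : ℝ)

/-- the error of the linear count -/
noncomputable def BB_E (r : ℝ) (y : Nd) : ℝ :=
  ((LinSet y.l1 y.l2 r).ncard : ℝ) - (r ^ 2 / (2 * y.l1 * y.l2) + r / (2 * y.l1) - r / (2 * y.l2)) +
    SS y.l1 y.l2 r

lemma BB_dec {P : Tri} (h : Gr P) (M : ℕ) (r : ℝ) :
    Ht P r = lsum M M (rt P) (BB_G r) + alM P M * r ^ 2 -
      lsum M M (rt P) (fun y => SS y.l1 y.l2 r) + lsum M M (rt P) (BB_E r) := by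
  rw [← lsum_Ht h M M r]
  have e : (fun y : Nd => Ht y.t r) = fun y => BB_G r y + (r ^ 2 * (1 / (2 * y.l1 * y.l2)) +
      ((-1) * SS y.l1 y.l2 r + BB_E r y)) := by
    funext y
    unfold Ht H BB_G BB_E Nd.l1 Nd.l2
    ring
  rw [e, lsum_add, lsum_add, lsum_add, lsum_mul, lsum_mul]
  unfold alM
  ring

theorem BB (hLM : LM_stmt) (hS2 : S2_stmt) (hRS : RS_stmt) (hGP : GP_stmt) : BB_stmt := by
  intro P C0 α hP hSW hAL
  have hC0 : 1 ≤ C0 := hSW.1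
  have hC0r : (1 : ℝ) ≤ C0 := by exact_mod_cast hC0
  set c := min (ltau P.1) (ltau P.2.1) with hcdef
  set c' := max (len P.1) (len P.2.1) with hc'def
  have hPar := Par_of_Gr hP
  have hGN := GN_rt hP
  rw [← hcdef, ← hc'def] at hPar hGN
  have hc : 0 < c := hPar.c0
  have hc' : 0 < c' := hc.trans_le hPar.cc
  obtain ⟨Cg, hCg, hg⟩ := hGP P C0 hP hSW
  obtain ⟨Cr, hCr, jr, hr⟩ := hRS P hP 0.3 (by norm_num)
  obtain ⟨Ca, hCa, ha⟩ := hAL
  obtain ⟨Cl, hCl, jl, hjl1, hl⟩ := BB_leaf hS2 c c' hc hc' C0 hC0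
  obtain ⟨je, he⟩ := BB_ev 1 5
  -- constants
  set K4 : ℝ := (C0 : ℝ) ^ 2 * (c' * C0 / c + 1) with hK4
  have hK4p : 0 < K4 := by positivity
  refine ⟨2 * Cg + 4 * Ca + (Cl * Cr + Cl * (C0 : ℝ) ^ 2) + K4, by positivity,
    max (max jl jr) je, ?_⟩
  intro j hj R N1 N2 hR hN1 hN2
  have hjl : jl ≤ j := ((le_max_left _ _).trans (le_max_left _ _)).trans hj
  have hjr : jr ≤ j := ((le_max_right _ _).trans (le_max_left _ _)).trans hj
  have hje : je ≤ j := (le_max_right _ _).trans hj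
  have hj1 : 1 ≤ j := hjl1.trans hjl
  have hjr1 : (1 : ℝ) ≤ j := by exact_mod_cast hj1
  have hj0 : (0 : ℝ) < j := by linarith
  have hRp : 0 < R := lt_of_lt_of_le (by positivity) hR
  have hp2 : (0 : ℝ) < 2 ^ j := by positivity
  have h65 : 0 < (j : ℝ) ^ (-(6 / 5) : ℝ) := Real.rpow_pos_of_pos hj0 _
  -- 1 / j ^ 2 ≤ j ^ (-6/5)
  have hjj : 1 / (j : ℝ) ^ 2 ≤ (j : ℝ) ^ (-(6 / 5) : ℝ) := by
    have e : 1 / (j : ℝ) ^ 2 = (j : ℝ) ^ (-2 : ℝ) := by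
      rw [Real.rpow_neg hj0.le, one_div]
      congr 1
      exact_mod_cast (Real.rpow_natCast (j : ℝ) 2).symm
    rw [e]
    exact Real.rpow_le_rpow_of_exponent_le hjr1 (by norm_num)
  -- j ^ 5 ≤ 2 ^ j
  have h5 : (j : ℝ) ^ 5 ≤ 2 ^ j := by
    have h := he j hje
    rw [one_mul] at h
    calc (j : ℝ) ^ 5 ≤ (j : ℝ) ^ 5 * Real.exp (0.3 * (j : ℝ)) :=
          le_mul_of_one_le_right (by positivity) (Real.one_le_exp (by positivity))
      _ ≤ 2 ^ (j / 2) := h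
      _ ≤ 2 ^ j := pow_le_pow_right₀ (by norm_num) (Nat.div_le_self _ _)
  have h2j : 1 / (2 : ℝ) ^ j ≤ 1 / (j : ℝ) ^ 2 := by
    apply one_div_le_one_div_of_le (by positivity)
    refine le_trans ?_ h5
    exact pow_le_pow_right₀ hjr1 (by norm_num)
  set M := C0 * j with hM
  have hM1 : 1 ≤ M := Nat.mul_pos hC0 hj1
  have hMr : (M : ℝ) = C0 * j := by rw [hM]; push_cast; ring
  -- leaves
  have hleaf : ∀ y ∈ lvs M M (rt P), GN c c' (kap P) (min P.1 P.2.1) y ∧ c ≤ y.l1 ∧ c ≤ y.l2 ∧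
      y.l1 ≤ c' * (C0 * j) ∧ y.l2 ≤ c' * (C0 * j) := by
    intro y hy
    have hG := GN_lvs M M (rt P) hGN y hy
    obtain ⟨b1, b2⟩ := lvs_le M M (rt P) (by rw [rt_m1]; exact hM1) (by rw [rt_m2]; exact hM1) y hy
    have b1' : (y.m1 : ℝ) ≤ C0 * j := by rw [← hMr]; exact_mod_cast b1
    have b2' : (y.m2 : ℝ) ≤ C0 * j := by rw [← hMr]; exact_mod_cast b2
    exact ⟨hG, hG.l1_ge' hc, hG.l2_ge' hc, hG.l1_le.trans (mul_le_mul_of_nonneg_left b1' hc'.le),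
      hG.l2_le.trans (mul_le_mul_of_nonneg_left b2' hc'.le)⟩
  -- radii
  have hrad := BB_r j R N1 N2 hRp hN1 hN2
  have hcard := BB_card j R N1 N2 hN2
  -- decomposition
  have hdec : ∑ d ∈ Ioc N1 N2, mu d * (Ht P (R / d) - α * (R / d) ^ 2) =
      ∑ d ∈ Ioc N1 N2, mu d * lsum M M (rt P) (BB_G (R / d)) +
      ∑ d ∈ Ioc N1 N2, mu d * ((alM P M - α) * (R / d) ^ 2) -
      ∑ d ∈ Ioc N1 N2, mu d * lsum M M (rt P) (fun y => SS y.l1 y.l2 (R / d)) +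
      ∑ d ∈ Ioc N1 N2, mu d * lsum M M (rt P) (BB_E (R / d)) := by
    rw [← sum_add_distrib, ← sum_sub_distrib, ← sum_add_distrib]
    apply sum_congr rfl
    intro d _
    rw [BB_dec hP M (R / d)]
    ring
  -- T1
  have hGnn : ∀ d : ℕ, ∀ y ∈ lvs M M (rt P), 0 ≤ BB_G (R / d) y := by
    intro d y hy
    unfold BB_G
    have hG := (hleaf y hy).1.gr
    have := Set.ncard_le_ncard (LinSet_subset_HS hG (R / d)) (HS_finite hG _)
    rw [sub_nonneg]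
    unfold Nd.l1 Nd.l2
    exact_mod_cast this
  have hT1 : |∑ d ∈ Ioc N1 N2, mu d * lsum M M (rt P) (BB_G (R / d))| ≤
      2 * Cg * (R * (1 / 2 ^ j)) := by
    have a1 : |∑ d ∈ Ioc N1 N2, mu d * lsum M M (rt P) (BB_G (R / d))| ≤
        ∑ d ∈ Ioc N1 N2, lsum M M (rt P) (BB_G (R / d)) := by
      refine (abs_sum_le_sum_abs _ _).trans (sum_le_sum ?_)
      intro d _
      have b0 := lsum_nonneg M M (rt P) _ (hGnn d)
      rw [abs_mul, abs_of_nonneg b0]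
      exact mul_le_of_le_one_left b0 (BB_mu d)
    have hR1 : 1 ≤ R := le_trans (one_le_pow₀ (by norm_num)) hR
    have a2 := hg j hj1 R N1 N2 hR1 hN1 hN2
    rw [lsum_sum (ι := ℕ) _ _ _ _ (fun d y => ((HS y.t (R / d)).ncard : ℝ) -
      ((LinSet y.l1 y.l2 (R / d)).ncard : ℝ))] at a2
    have a3 : (4 : ℝ) ^ j ≤ R / 2 ^ j := by
      rw [le_div_iff₀ hp2]
      refine le_trans ?_ hR
      rw [show (4 : ℝ) = 2 ^ 2 by norm_num, ← pow_mul, ← pow_add]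
      exact pow_le_pow_right₀ (by norm_num) (by omega)
    calc _ ≤ _ := a1
      _ ≤ Cg * (4 ^ j + R / 2 ^ j) := a2
      _ ≤ Cg * (R / 2 ^ j + R / 2 ^ j) := by gcongr
      _ = _ := by ring
  -- T2
  have hT2 : |∑ d ∈ Ioc N1 N2, mu d * ((alM P M - α) * (R / d) ^ 2)| ≤
      4 * Ca * (R * (1 / 2 ^ j)) := by
    have a1 : ∀ d ∈ Ioc N1 N2, |(alM P M - α) * (R / (d : ℝ)) ^ 2| ≤ 4 * Ca := by
      intro d hd
      obtain ⟨r1, r2⟩ := hrad d hd
      have r0 : 0 ≤ R / (d : ℝ) := le_trans hp2.le r1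
      rw [abs_mul, abs_of_nonneg (sq_nonneg (R / (d : ℝ)))]
      have b1 := ha j hj1
      have b2 : (R / (d : ℝ)) ^ 2 ≤ (2 ^ (j + 1)) ^ 2 := pow_le_pow_left₀ r0 r2 2
      calc |alM P M - α| * (R / (d : ℝ)) ^ 2 ≤ Ca / 2 ^ (4 * j) * (2 ^ (j + 1)) ^ 2 :=
            mul_le_mul b1 b2 (sq_nonneg _) (by positivity)
        _ = 4 * Ca * (1 / 2 ^ (2 * j)) := by
            rw [show 4 * j = 2 * j + 2 * j by ring, pow_add, ← pow_mul,
              show (j + 1) * 2 = 2 * j + 2 by ring, pow_add]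
            field_simp
            norm_num
        _ ≤ 4 * Ca * 1 := by
            apply mul_le_mul_of_nonneg_left _ (by positivity)
            rw [div_le_one (by positivity)]
            exact one_le_pow₀ (by norm_num)
        _ = _ := mul_one _
    refine (BB_triv _ (fun d => (alM P M - α) * (R / (d : ℝ)) ^ 2) _ a1).trans ?_
    calc ((Ioc N1 N2).card : ℝ) * (4 * Ca) ≤ R / 2 ^ j * (4 * Ca) :=
          mul_le_mul_of_nonneg_right hcard (by positivity)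
      _ = _ := by ring
  -- T4
  have hT4 : |∑ d ∈ Ioc N1 N2, mu d * lsum M M (rt P) (BB_E (R / d))| ≤
      K4 * (R / (j : ℝ) ^ 2) := by
    have a1 : ∀ d ∈ Ioc N1 N2, |lsum M M (rt P) (BB_E (R / d))| ≤
        (M : ℝ) ^ 2 * (c' * (C0 * j) / c + 1) := by
      intro d hd
      obtain ⟨r1, r2⟩ := hrad d hd
      have r0 : 0 ≤ R / (d : ℝ) := le_trans hp2.le r1
      refine (lsum_abs _ _ _ _).trans ?_
      apply lsum_le_const hP M hM1 _ _ (by positivity)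
      intro y hy
      obtain ⟨_, q1, q2, q3, q4⟩ := hleaf y hy
      have q5 : 0 < y.l1 := hc.trans_le q1
      have q6 : 0 < y.l2 := hc.trans_le q2
      refine (hLM y.l1 y.l2 (R / d) q5 q6 r0).trans ?_
      have : y.l2 / y.l1 ≤ c' * (C0 * j) / c := div_le_div₀ (by positivity) q4 hc q1
      linarith
    refine (BB_triv _ (fun d => lsum M M (rt P) (BB_E (R / (d : ℝ)))) _ a1).trans ?_
    have a2 : (M : ℝ) ^ 2 * (c' * (C0 * j) / c + 1) ≤ K4 * (j : ℝ) ^ 3 := by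
      rw [hMr, hK4]
      have b1 : (1 : ℝ) ≤ j := hjr1
      have b2 : c' * (C0 * j) / c + 1 ≤ (c' * C0 / c + 1) * j := by
        have : c' * (C0 * j) / c = c' * C0 / c * j := by ring
        rw [this]
        nlinarith
      calc ((C0 : ℝ) * j) ^ 2 * (c' * (C0 * j) / c + 1) ≤
            ((C0 : ℝ) * j) ^ 2 * ((c' * C0 / c + 1) * j) :=
            mul_le_mul_of_nonneg_left b2 (by positivity)
        _ = _ := by ring
    have a3 : (j : ℝ) ^ 3 / 2 ^ j ≤ 1 / (j : ℝ) ^ 2 := by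
      rw [div_le_div_iff₀ hp2 (by positivity)]
      calc (j : ℝ) ^ 3 * (j : ℝ) ^ 2 = (j : ℝ) ^ 5 := by ring
        _ ≤ 2 ^ j := h5
        _ = _ := (one_mul _).symm
    calc ((Ioc N1 N2).card : ℝ) * ((M : ℝ) ^ 2 * (c' * (C0 * j) / c + 1)) ≤
          R / 2 ^ j * (K4 * (j : ℝ) ^ 3) :=
          mul_le_mul hcard a2 (by positivity) (by positivity)
      _ = K4 * R * ((j : ℝ) ^ 3 / 2 ^ j) := by ring
      _ ≤ K4 * R * (1 / (j : ℝ) ^ 2) := mul_le_mul_of_nonneg_left a3 (by positivity)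
      _ = _ := by ring
  -- T3
  have hT3 : |∑ d ∈ Ioc N1 N2, mu d * lsum M M (rt P) (fun y => SS y.l1 y.l2 (R / d))| ≤
      Cl * Cr * (R * (j : ℝ) ^ (-(6 / 5) : ℝ)) + Cl * (C0 : ℝ) ^ 2 * (R / (j : ℝ) ^ 2) := by
    have hch : ∀ y : Nd, ∃ a s : ℕ, 0 < y.l1 → 0 < y.l2 →
        1 ≤ s ∧ s ≤ 2 ^ (j / 2) ∧ Nat.Coprime a s ∧
        (s : ℝ) * |y.l2 / y.l1 - a / s| ≤ 1 / ((2 ^ (j / 2) : ℕ) : ℝ) ∧
        |y.l2 / y.l1 - a / s| ≤ 1 / (s : ℝ) ^ 2 :=
      fun y => BB_dir y.l1 y.l2 (2 ^ (j / 2)) (Nat.one_le_two_pow)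
    choose a s has using hch
    have e1 : ∑ d ∈ Ioc N1 N2, mu d * lsum M M (rt P) (fun y => SS y.l1 y.l2 (R / d)) =
        lsum M M (rt P) (fun y => ∑ d ∈ Ioc N1 N2, mu d * SS y.l1 y.l2 (R / d)) := by
      rw [lsum_sum (ι := ℕ) _ _ _ _ (fun d y => mu d * SS y.l1 y.l2 (R / d))]
      apply sum_congr rfl
      intro d _
      rw [lsum_mul]
    rw [e1]
    refine (lsum_abs _ _ _ _).trans ?_
    have hjM : j ≤ M := by rw [hM]; exact Nat.le_mul_of_pos_left _ hC0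
    have hRSj := hr j M hjr hjM a s
    have e2 : lsum M M (rt P) (fun y => |∑ d ∈ Ioc N1 N2, mu d * SS y.l1 y.l2 (R / d)|) ≤
        lsum M M (rt P) (fun y => Cl * R * (j : ℝ) ^ (-(1 / 5) : ℝ) * (open Classical in
          if Bad 0.3 j y (a y) (s y) then 1 / (y.l2 * (s y : ℝ)) else 0) +
          Cl * R / (j : ℝ) ^ 4) := by
      apply lsum_le
      intro y hy
      obtain ⟨_, q1, q2, q3, q4⟩ := hleaf y hy
      obtain ⟨s1, s2, s3, s4, s5⟩ := has y (hc.trans_le q1) (hc.trans_le q2)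
      exact hl j hjl R N1 N2 hR hN1 hN2 y (a y) (s y) q1 q2 q3 s1 s2 s3
        (by push_cast at s4; exact s4) s5
    refine e2.trans ?_
    rw [lsum_add, lsum_mul]
    have e3 := lsum_le_const hP M hM1 (fun _ => Cl * R / (j : ℝ) ^ 4) (Cl * R / (j : ℝ) ^ 4)
      (by positivity) (fun _ _ => le_rfl)
    have e4 : (M : ℝ) ^ 2 * (Cl * R / (j : ℝ) ^ 4) = Cl * (C0 : ℝ) ^ 2 * (R / (j : ℝ) ^ 2) := by
      rw [hMr]; field_simp
    have e5 : (j : ℝ) ^ (-(1 / 5) : ℝ) * (1 / j) = (j : ℝ) ^ (-(6 / 5) : ℝ) := by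
      have b : 1 / (j : ℝ) = (j : ℝ) ^ (-1 : ℝ) := by rw [Real.rpow_neg_one, one_div]
      rw [b, ← Real.rpow_add hj0]
      norm_num
    have e6 : Cl * R * (j : ℝ) ^ (-(1 / 5) : ℝ) * lsum M M (rt P) (fun y => open Classical in
          if Bad 0.3 j y (a y) (s y) then 1 / (y.l2 * (s y : ℝ)) else 0) ≤
        Cl * Cr * (R * (j : ℝ) ^ (-(6 / 5) : ℝ)) := by
      calc _ ≤ Cl * R * (j : ℝ) ^ (-(1 / 5) : ℝ) * (Cr / j) :=
            mul_le_mul_of_nonneg_left hRSj (by positivity)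
        _ = Cl * Cr * (R * ((j : ℝ) ^ (-(1 / 5) : ℝ) * (1 / j))) := by ring
        _ = _ := by rw [e5]
    linarith
  rw [hdec]
  set T1 := ∑ d ∈ Ioc N1 N2, mu d * lsum M M (rt P) (BB_G (R / d))
  set T2 := ∑ d ∈ Ioc N1 N2, mu d * ((alM P M - α) * (R / d) ^ 2)
  set T3 := ∑ d ∈ Ioc N1 N2, mu d * lsum M M (rt P) (fun y => SS y.l1 y.l2 (R / d))
  set T4 := ∑ d ∈ Ioc N1 N2, mu d * lsum M M (rt P) (BB_E (R / d))
  have htri : |T1 + T2 - T3 + T4| ≤ |T1| + |T2| + |T3| + |T4| := by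
    have b1 := abs_add_le (T1 + T2 - T3) T4
    have b2 := abs_sub (T1 + T2) T3
    have b3 := abs_add_le T1 T2
    linarith
  have f1 : R * (1 / 2 ^ j) ≤ R * (j : ℝ) ^ (-(6 / 5) : ℝ) :=
    mul_le_mul_of_nonneg_left (h2j.trans hjj) hRp.le
  have f2 : R / (j : ℝ) ^ 2 ≤ R * (j : ℝ) ^ (-(6 / 5) : ℝ) := by
    calc R / (j : ℝ) ^ 2 = R * (1 / (j : ℝ) ^ 2) := by ring
      _ ≤ _ := mul_le_mul_of_nonneg_left hjj hRp.le
  have g1 : 2 * Cg * (R * (1 / 2 ^ j)) ≤ 2 * Cg * (R * (j : ℝ) ^ (-(6 / 5) : ℝ)) :=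
    mul_le_mul_of_nonneg_left f1 (by positivity)
  have g2 : 4 * Ca * (R * (1 / 2 ^ j)) ≤ 4 * Ca * (R * (j : ℝ) ^ (-(6 / 5) : ℝ)) :=
    mul_le_mul_of_nonneg_left f1 (by positivity)
  have g3 : Cl * (C0 : ℝ) ^ 2 * (R / (j : ℝ) ^ 2) ≤
      Cl * (C0 : ℝ) ^ 2 * (R * (j : ℝ) ^ (-(6 / 5) : ℝ)) :=
    mul_le_mul_of_nonneg_left f2 (by positivity)
  have g4 : K4 * (R / (j : ℝ) ^ 2) ≤ K4 * (R * (j : ℝ) ^ (-(6 / 5) : ℝ)) :=
    mul_le_mul_of_nonneg_left f2 hK4p.le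
  have e : (2 * Cg + 4 * Ca + (Cl * Cr + Cl * (C0 : ℝ) ^ 2) + K4) * R * (j : ℝ) ^ (-(6 / 5) : ℝ) =
      2 * Cg * (R * (j : ℝ) ^ (-(6 / 5) : ℝ)) + 4 * Ca * (R * (j : ℝ) ^ (-(6 / 5) : ℝ)) +
      (Cl * Cr * (R * (j : ℝ) ^ (-(6 / 5) : ℝ)) +
        Cl * (C0 : ℝ) ^ 2 * (R * (j : ℝ) ^ (-(6 / 5) : ℝ))) +
      K4 * (R * (j : ℝ) ^ (-(6 / 5) : ℝ)) := by ring
  rw [e]
  linarith

end AM
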